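import Pool.Agent.H37R3.Lag.CAFin

/-!
# The Turán density of the tight 5-cycle is at most `0.467`

Every 3-graph on `n` vertices without a tight 5-cycle has at most `(0.467/6) n³` edges, so
`π(C_5^3) ≤ 0.467` (earlier: `π(C_5^3) < 0.4683`, Razborov).

Outline: the sum of squares method for six-vertex structures is combined with properties of
structures of (nearly) maximum density `π` which are not consequences of it. In a structure with the
maximum number of edges all degrees are equal up to `O(n)`, since a vertex can be replaced by a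
clone of another one. And for every set `U` of vertices the number of ordered edges inside `U` is at
most `π |U|³`; this is used for the sets `U` of all vertices completing the three pairs of a triple.
-/

set_option autoImplicit false
open Finset
open scoped Classical

namespace Pool.Agent.Results.MP_fc6a29_co.UpperBound

/-- The 3-graph `H` contains no tight cycle on five vertices: there are no distinct vertices
`f 0, ..., f 4` such that all five triples `{f i, f (i+1), f (i+2)}` (indices mod 5) are edges. -/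
def TightFiveCycleFree {n : ℕ} (H : Finset (Finset (Fin n))) : Prop :=
  ¬ ∃ f : Fin 5 → Fin n, Function.Injective f ∧
    ∀ i : Fin 5, ({f i, f (i + 1), f (i + 2)} : Finset (Fin n)) ∈ H

theorem main (n : ℕ) (H : Finset (Finset (Fin n))) (h3 : ∀ e ∈ H, e.card = 3)
    (hC : TightFiveCycleFree H) : 6000 * H.card ≤ 467 * n ^ 3 := by
  have hF : Pool.Agent.H37R3.Lag.C5Free H := by
    intro f hf
    by_contra hcon
    push Not at hcon
    exact hC ⟨f, hf, fun i => by
      have := hcon i
      convert this using 1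
      ext v
      simp only [Finset.mem_insert, Finset.mem_singleton]⟩
  have h1 := Pool.Agent.H37R3.CA.main (Pool.Agent.H122R2.N6.tri H)
    ⟨Pool.Agent.H122R2.N6.tri_sy H, Pool.Agent.H37R3.Lag.tri_noC5 h3 hF⟩
  have h2 := Pool.Agent.H122R2.N6.six_card_le h3
  rw [Fintype.card_fin] at h1
  unfold Pool.Agent.H37R3.Lag.TT at h1
  calc 6000 * H.card = 1000 * (6 * H.card) := by ring
    _ ≤ 1000 * ∑ a, ∑ b, ∑ c, Pool.Agent.H122R2.N6.tri H a b c := Nat.mul_le_mul_left _ h2
    _ ≤ 467 * n ^ 3 := h1

/-- Every 3-graph `H` on `n` vertices without a tight 5-cycle has at most `(467/6000) n³` edges; and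
for every `ε > 0` and all large `n` it has at most `(0.467 + ε) C(n,3)` edges: the Turán density of
the tight 5-cycle is at most `0.467`. -/
theorem result :
    (∀ (n : ℕ) (H : Finset (Finset (Fin n))), (∀ e ∈ H, e.card = 3) → TightFiveCycleFree H →
      6000 * H.card ≤ 467 * n ^ 3) ∧
    (∀ ε : ℝ, ε > 0 → ∃ N : ℕ, ∀ n : ℕ, N ≤ n → ∀ H : Finset (Finset (Fin n)),
      (∀ e ∈ H, e.card = 3) → TightFiveCycleFree H →
        (H.card : ℝ) ≤ (467 / 1000 + ε) * ((n.choose 3 : ℕ) : ℝ)) := by
  refine ⟨main, ?_⟩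
  intro ε hε
  obtain ⟨N, hN⟩ := exists_nat_gt (3 * (467 / 1000 + ε) / ε)
  refine ⟨max N 3, fun n hn H h3 hC => ?_⟩
  have h := main n H h3 hC
  have hn3 : 3 ≤ n := (le_max_right _ _).trans hn
  have hnN : 3 * (467 / 1000 + ε) / ε < (n : ℝ) :=
    hN.trans_le (by exact_mod_cast (le_max_left _ _).trans hn)
  rw [div_lt_iff₀ hε] at hnN
  have hch : ((n.choose 3 : ℕ) : ℝ) = (n : ℝ) * (n - 1) * (n - 2) / 6 := by
    have h1 : n.choose 3 * 6 = n * (n - 1) * (n - 2) := by
      have := Nat.descFactorial_eq_factorial_mul_choose n 3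
      have h2 : n.descFactorial 3 = (n - 2) * ((n - 1) * n) := by
        simp [Nat.descFactorial]
      rw [h2] at this
      have h3 : Nat.factorial 3 = 6 := rfl
      rw [h3] at this
      linarith
    have h4 : ((n.choose 3 * 6 : ℕ) : ℝ) = ((n * (n - 1) * (n - 2) : ℕ) : ℝ) := by rw [h1]
    push_cast [Nat.cast_sub (show 1 ≤ n by omega), Nat.cast_sub (show 2 ≤ n by omega)] at h4
    linarith
  rw [hch]
  have hr : 6000 * (H.card : ℝ) ≤ 467 * (n : ℝ) ^ 3 := by exact_mod_cast h
  have hn0 : (0 : ℝ) ≤ (n : ℝ) := by positivity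
  have e1 : (n : ℝ) ^ 3 - 3 * (n : ℝ) ^ 2 ≤ (n : ℝ) * (n - 1) * (n - 2) := by nlinarith
  have e2 : 0 ≤ ((n : ℝ) * ε - 3 * (467 / 1000 + ε)) * (n : ℝ) ^ 2 :=
    mul_nonneg (by linarith) (by positivity)
  have e3 := mul_le_mul_of_nonneg_left e1 (show (0 : ℝ) ≤ 467 / 1000 + ε by positivity)
  nlinarith

end Pool.Agent.Results.MP_fc6a29_co.UpperBound
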